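import Pool.Agent.Q164.Leg3

/-!
Polynomial Legendre multiplier sequences are polynomials in `k (k + 1)`; in particular none has
odd degree.
-/

namespace Pool.Agent.Results.MP_87bea5_an.OddDegree

open Polynomial Finset

/-- The Legendre polynomial `P_n = (2^n n!)⁻¹ D^n (x^2 - 1)^n`. -/
noncomputable def legendre (n : ℕ) : ℝ[X] :=
  C (1 / (2 ^ n * (n.factorial : ℝ))) * derivative^[n] ((X ^ 2 - 1) ^ n)

/-- All complex zeros are real; the zero polynomial is included. -/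
def OnlyRealZeros (p : ℝ[X]) : Prop := p = 0 ∨ ∀ z : ℂ, aeval z p = 0 → z.im = 0

/-- Legendre multiplier sequences. -/
def IsLegendreMS (γ : ℕ → ℝ) : Prop :=
  ∀ (n : ℕ) (a : ℕ → ℝ), OnlyRealZeros (∑ k ∈ range (n + 1), C (a k) * legendre k) →
    OnlyRealZeros (∑ k ∈ range (n + 1), C (a k * γ k) * legendre k)

theorem result :
    (∀ Q : ℝ[X], Odd Q.natDegree → ¬ IsLegendreMS fun k => Q.eval (k : ℝ)) ∧
    (∀ Q : ℝ[X], (IsLegendreMS fun k => Q.eval (k : ℝ)) → ∃ E : ℝ[X], Q = E.comp (X ^ 2 + X)) := by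
  have key : ∀ Q : ℝ[X], (IsLegendreMS fun k => Q.eval (k : ℝ)) →
      ∃ E : ℝ[X], Q = E.comp (X ^ 2 + X) := fun Q h => Pool.Agent.Q164.Leg.main Q h
  refine ⟨fun Q hodd h => ?_, key⟩
  obtain ⟨E, hE⟩ := key Q h
  have h2 : (X ^ 2 + X : ℝ[X]).natDegree = 2 := by compute_degree!
  rw [hE, natDegree_comp, h2] at hodd
  exact (Nat.not_odd_iff_even.2 (even_two.mul_left _)) hodd

end Pool.Agent.Results.MP_87bea5_an.OddDegree
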